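import Pool.Agent.H74.DZ.Targets

/-!
# Module CO: the final count
-/

set_option autoImplicit false

open Complex MeasureTheory Set Filter Topology

namespace Pool.Agent.H70.DZ

open Pool.Agent.H74.DZ

/-- the number of `m` with `d log (X + m D)` in a short interval -/
theorem count_log (X D d ρ u : ℝ) (M : ℕ) (hX : 0 < X) (hD : 0 < D) (hd : 0 < d) (hρ : 0 ≤ ρ)
    (hM : M * D ≤ X) (s : Finset ℕ)
    (hs : ∀ m ∈ s, m < M ∧ |u - d * Real.log (X + m * D)| ≤ ρ) :
    (s.card : ℝ) ≤ 1 + 4 * X * ρ / (d * D) := by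
  rcases s.eq_empty_or_nonempty with h0 | h0
  · subst h0
    simp
    positivity
  · obtain ⟨ha1, ha2⟩ := hs _ (s.min'_mem h0)
    obtain ⟨hb1, hb2⟩ := hs _ (s.max'_mem h0)
    set a := s.min' h0
    set b := s.max' h0
    have hab : a ≤ b := s.min'_le_max' h0
    have hsub : s ⊆ Finset.Icc a b := fun m hm =>
      Finset.mem_Icc.mpr ⟨s.min'_le m hm, s.le_max' m hm⟩
    have hcard : s.card ≤ b + 1 - a := by
      have := Finset.card_le_card hsub
      rwa [Nat.card_Icc] at this
    have hcard' : (s.card : ℝ) ≤ 1 + ((b : ℝ) - a) := by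
      have : s.card + a ≤ b + 1 := by omega
      have : (s.card : ℝ) + a ≤ b + 1 := by exact_mod_cast this
      linarith
    have habR : (a : ℝ) ≤ b := by exact_mod_cast hab
    have hbR : (b : ℝ) * D ≤ X := by
      have : (b : ℝ) ≤ M := by exact_mod_cast hb1.le
      nlinarith
    have hTa : 0 < X + a * D := by positivity
    have hTb : 0 < X + b * D := by positivity
    have hlog : ((b : ℝ) - a) * D / (2 * X) ≤ Real.log (X + b * D) - Real.log (X + a * D) := by
      have h1 := Real.one_sub_inv_le_log_of_pos (div_pos hTb hTa)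
      rw [Real.log_div hTb.ne' hTa.ne', inv_div] at h1
      refine le_trans ?_ h1
      have : 1 - (X + a * D) / (X + b * D) = ((b : ℝ) - a) * D / (X + b * D) := by
        field_simp
        ring
      rw [this]
      apply div_le_div_of_nonneg_left _ hTb (by linarith)
      exact mul_nonneg (by linarith) hD.le
    have h2 : d * (Real.log (X + b * D) - Real.log (X + a * D)) ≤ 2 * ρ := by
      have e1 := (abs_le.mp ha2).2
      have e2 := (abs_le.mp hb2).1
      linarith
    have h3 : d * (((b : ℝ) - a) * D / (2 * X)) ≤ 2 * ρ :=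
      le_trans (mul_le_mul_of_nonneg_left hlog hd.le) h2
    have h4 : (b : ℝ) - a ≤ 4 * X * ρ / (d * D) := by
      rw [le_div_iff₀ (by positivity)]
      have : d * (((b : ℝ) - a) * D / (2 * X)) * (2 * X) ≤ 2 * ρ * (2 * X) :=
        mul_le_mul_of_nonneg_right h3 (by positivity)
      have e : d * (((b : ℝ) - a) * D / (2 * X)) * (2 * X) = ((b : ℝ) - a) * (d * D) := by
        field_simp
      rw [e] at this
      linarith
    linarith

theorem ev_rpow (A p q : ℝ) (h : p < q) : ∀ᶠ X : ℝ in atTop, A * X ^ p ≤ X ^ q := by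
  have h1 : Tendsto (fun X : ℝ => X ^ (q - p)) atTop atTop := tendsto_rpow_atTop (by linarith)
  filter_upwards [h1.eventually_ge_atTop A, eventually_gt_atTop 0] with X h2 h3
  calc A * X ^ p ≤ X ^ (q - p) * X ^ p := mul_le_mul_of_nonneg_right h2 (by positivity)
    _ = X ^ q := by rw [← Real.rpow_add h3]; congr 1; ring

theorem ev_log (η : ℝ) (h : 0 < η) : ∀ᶠ X : ℝ in atTop, Real.log (2 * X) ≤ X ^ η := by
  have h1 := (isLittleO_log_rpow_atTop (half_pos h)).bound (c := 1) one_pos
  have h2 : Tendsto (fun X : ℝ => 2 * X) atTop atTop := tendsto_id.const_mul_atTop two_pos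
  filter_upwards [h2.eventually h1, ev_rpow (2 ^ (η / 2)) (η / 2) η (by linarith),
    eventually_gt_atTop 1] with X h3 h4 h5
  rw [one_mul, Real.norm_eq_abs, Real.norm_eq_abs,
    abs_of_nonneg (Real.log_nonneg (by linarith)), abs_of_nonneg (by positivity)] at h3
  rw [Real.mul_rpow (by norm_num) (by linarith)] at h3
  linarith

theorem co (hMN : T_MN) : T_final := by
  classical
  intro r k f h δ hdeg haf hah hdf hdh
  set d := deg f h with hd_def
  obtain ⟨δ', hδ'1, hδ'2, hδ'0, hδ'f, hδ'h⟩ : ∃ x : ℝ, x < δ ∧ x < 1 / 2 ∧ 0 < x ∧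
      (∀ i, d / (2 * (f i).a) < x) ∧ (∀ j, d / (2 * (h j).a) < x) := by
    have hr : Nonempty (Fin r) := by
      by_contra hne
      rw [not_nonempty_iff] at hne
      have : d ≤ 0 := by
        rw [hd_def]; unfold deg
        have : 0 ≤ ∑ j, (h j).a := Finset.sum_nonneg fun j _ => (h j).pos.le
        simp
        exact this
      linarith
    obtain ⟨i0⟩ := hr
    have hm : 0 < min δ (1 / 2) := by
      apply lt_min _ (by norm_num)
      exact lt_trans (div_pos hdeg (by have := (f i0).pos; positivity)) (hdf i0)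
    have e1 : ∀ᶠ x in 𝓝[<] (min δ (1 / 2)), x < min δ (1 / 2) := eventually_mem_nhdsWithin
    have e2 : ∀ᶠ x in 𝓝[<] (min δ (1 / 2)), 0 < x :=
      nhdsWithin_le_nhds (eventually_gt_nhds hm)
    have e3 : ∀ᶠ x in 𝓝[<] (min δ (1 / 2)), ∀ i, d / (2 * (f i).a) < x := by
      rw [eventually_all]
      intro i
      apply nhdsWithin_le_nhds
      apply eventually_gt_nhds
      apply lt_min (hdf i)
      rw [div_lt_div_iff₀ (by have := (f i).pos; positivity) (by norm_num)]
      linarith [haf i]
    have e4 : ∀ᶠ x in 𝓝[<] (min δ (1 / 2)), ∀ j, d / (2 * (h j).a) < x := by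
      rw [eventually_all]
      intro i
      apply nhdsWithin_le_nhds
      apply eventually_gt_nhds
      apply lt_min (hdh i)
      rw [div_lt_div_iff₀ (by have := (h i).pos; positivity) (by norm_num)]
      linarith [hah i]
    obtain ⟨x, hx1, hx2, hx3, hx4⟩ := (e1.and (e2.and (e3.and e4))).exists
    exact ⟨x, lt_of_lt_of_le hx1 (min_le_left _ _), lt_of_lt_of_le hx1 (min_le_right _ _), hx2,
      hx3, hx4⟩
  set σ := δ' / d with hσ
  have hσ0 : 0 < σ := div_pos hδ'0 hdeg
  have hdσ : d * σ = δ' := by rw [hσ]; field_simp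
  have hAbs : Abs f h σ := by
    have : ∀ a : ℝ, 0 < a → d / (2 * a) < δ' → 1 / 2 < a * σ := by
      intro a ha hx
      rw [div_lt_iff₀ (by positivity)] at hx
      rw [hσ, ← mul_div_assoc, div_lt_div_iff₀ (by norm_num) hdeg]
      linarith
    exact ⟨fun i => this _ (f i).pos (hδ'f i), fun j => this _ (h j).pos (hδ'h j)⟩
  obtain ⟨ι, _, c, l, C, W, T₀, hsum, hC, hW, hT₀, hmain⟩ := hMN r k f h σ hdeg hσ0 hAbs
  rw [← hd_def, hdσ] at hmain
  set δ₁ := min δ (1 / 2) with hδ₁
  have hδ₁a : δ₁ ≤ δ := min_le_left _ _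
  have hδ₁b : δ₁ ≤ 1 / 2 := min_le_right _ _
  have hδ'δ₁ : δ' < δ₁ := lt_min hδ'1 hδ'2
  set δ₂ := (δ' + δ₁) / 2 with hδ₂
  set η := (δ₁ - δ') / 4 with hη
  have hη0 : 0 < η := by rw [hη]; linarith
  have hi1 : δ' + η < δ₂ := by rw [hη, hδ₂]; linarith
  have hi2 : δ₂ + η < δ₁ := by rw [hη, hδ₂]; linarith
  have hi3 : δ₂ + δ₂ + η < 1 := by linarith
  have hi4 : δ' + (δ₂ + η) < 1 := by linarith
  have hδ₂0 : 0 < δ₂ := by linarith
  set g : ι → ℝ := fun x => ‖c x‖ * Real.exp (-(σ * l x)) with hg
  have hg0 : ∀ x, 0 ≤ g x := fun x => by positivity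
  set S := ∑' x, g x with hS
  have hS0 : 0 ≤ S := tsum_nonneg hg0
  set A := 3 * (1 + W) with hA
  -- the eventual inequalities
  have ev : ∀ᶠ X : ℝ in atTop, C ≤ X ^ δ₂ ∧ T₀ ≤ X ∧ 2 ≤ X ∧ Real.log (2 * X) ≤ X ^ η ∧
      C * X ^ (δ₂ + δ₂ + η) ≤ X ∧ 2 * A * X ^ (δ₂ + η) ≤ X ∧ 16 * A * X ^ (δ₂ + η) ≤ X ^ δ₁ ∧
      16 * (C * S * 2 * A) * X ^ (δ' + (δ₂ + η)) ≤ X ∧
      16 * (C * S * 2 * (4 * C / d)) * X ^ (δ' + η) ≤ X ^ δ₂ := by
    have u1 := ev_rpow C (δ₂ + δ₂ + η) 1 hi3
    have u2 := ev_rpow (2 * A) (δ₂ + η) 1 (by linarith)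
    have u3 := ev_rpow (16 * A) (δ₂ + η) δ₁ hi2
    have u4 := ev_rpow (16 * (C * S * 2 * A)) (δ' + (δ₂ + η)) 1 hi4
    have u5 := ev_rpow (16 * (C * S * 2 * (4 * C / d))) (δ' + η) δ₂ hi1
    have u6 := ev_rpow C 0 δ₂ hδ₂0
    simp only [Real.rpow_one] at u1 u2 u4
    simp only [Real.rpow_zero, mul_one] at u6
    filter_upwards [eventually_ge_atTop T₀, eventually_ge_atTop 2, ev_log η hη0, u1, u2, u3, u4,
      u5, u6] with X h1 h2 h3 h4 h5 h6 h7 h8 h9
    exact ⟨h9, h1, h2, h3, h4, h5, h6, h7, h8⟩
  obtain ⟨X₀, hX₀⟩ := eventually_atTop.mp ev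
  refine ⟨4 * max X₀ 2, fun T hT => ?_⟩
  set X := T / 4 with hX
  have hXX : X₀ ≤ X := by have := le_max_left X₀ 2; linarith
  obtain ⟨k0, k1, k2, k3, k4, k5, k6, k7, k8⟩ := hX₀ X hXX
  have hX0 : 0 < X := by linarith
  have hX1 : 1 ≤ X := by linarith
  set L := Real.log (2 * X) with hL
  have hL0 : 0 ≤ L := Real.log_nonneg (by linarith)
  have hL1 : 1 ≤ L := by
    have : Real.exp 1 ≤ 2 * X := by have := Real.exp_one_lt_d9; linarith
    rw [hL, Real.le_log_iff_exp_le (by linarith)]
    exact this
  set H := X ^ δ₂ with hH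
  have hH1 : 1 ≤ H := Real.one_le_rpow hX1 hδ₂0.le
  have hH0 : 0 < H := by linarith
  set w := H * L with hw
  have hw1 : 1 ≤ w := by nlinarith
  set D := 3 * (w + W) with hD
  have hD0 : 0 < D := by rw [hD]; linarith
  have hpow1 : H * X ^ η = X ^ (δ₂ + η) := by rw [hH, ← Real.rpow_add hX0]
  have hpow2 : 1 ≤ X ^ (δ₂ + η) := Real.one_le_rpow hX1 (by linarith)
  have hwX : w ≤ X ^ (δ₂ + η) := by
    rw [← hpow1, hw]; exact mul_le_mul_of_nonneg_left k3 hH0.le
  have hDA : D ≤ A * X ^ (δ₂ + η) := by
    rw [hD, hA]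
    nlinarith
  have hDX : 2 * D ≤ X := by linarith
  have hCHw : C * (H * w) ≤ X := by
    have : H * w ≤ X ^ (δ₂ + δ₂ + η) := by
      have e : X ^ (δ₂ + δ₂ + η) = H * X ^ (δ₂ + η) := by
        rw [hH, ← Real.rpow_add hX0]; congr 1; ring
      rw [e]
      exact mul_le_mul_of_nonneg_left hwX hH0.le
    exact le_trans (mul_le_mul_of_nonneg_left this (by linarith)) k4
  set M := ⌊X / D⌋₊ with hM
  have hMD : (M : ℝ) * D ≤ X := by
    have := Nat.floor_le (a := X / D) (by positivity)
    rw [le_div_iff₀ hD0] at this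
    exact this
  have hM2 : X / (2 * D) ≤ M := by
    have h1 := Nat.lt_floor_add_one (X / D)
    have h2 : 2 ≤ X / D := by rw [le_div_iff₀ hD0]; exact hDX
    have h3 : X / (2 * D) = (X / D) / 2 := by
      have gen : ∀ x y : ℝ, x / (2 * y) = (x / y) / 2 := fun x y => by
        rw [div_div, mul_comm y 2]
      exact gen X D
    rw [h3]
    have : (X / D) < (M : ℝ) + 1 := h1
    linarith
  set τ : ℕ → ℝ := fun m => X + m * D with hτ
  have hτ1 : ∀ m, X ≤ τ m := fun m => by simp only [hτ]; have : 0 ≤ (m : ℝ) * D := by positivity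
                                         linarith
  have hτ2 : ∀ m < M, τ m ≤ 2 * X := by
    intro m hm
    have : (m : ℝ) ≤ M := by exact_mod_cast hm.le
    simp only [hτ]
    nlinarith
  set P : ℕ → Prop := fun m => ∃ s, Exc f h s ∧ |s.im - τ m| ≤ w + W with hP
  set hit := (Finset.range M).filter P with hhit
  set non := (Finset.range M).filter (fun m => ¬ P m) with hnon
  have hcard : (hit.card : ℝ) + non.card = M := by
    have := Finset.card_filter_add_card_filter_not (s := Finset.range M) P
    rw [Finset.card_range] at this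
    exact_mod_cast this
  -- the non-hit windows
  have hnonbound : (non.card : ℝ) * D ≤ X / 8 := by
    have hlogτ : ∀ m < M, Real.log (τ m) ≤ L := fun m hm =>
      Real.log_le_log (by linarith [hτ1 m]) (hτ2 m hm)
    set cond : ℕ → ι → Prop := fun m x => |l x - (d * Real.log (τ m) + Con f h)| ≤ C * L / H
      with hcond
    have hstep : ∀ m ∈ non, (1 : ℝ) ≤ C * (2 * X) ^ δ' * ∑' x, if cond m x then g x else 0 := by
      intro m hm
      rw [hnon, Finset.mem_filter, Finset.mem_range] at hm
      have h1 := hmain (τ m) H w (le_trans k1 (hτ1 m)) k0 ?_ ?_ ?_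
      · refine h1.trans ?_
        have hb : C * τ m ^ δ' ≤ C * (2 * X) ^ δ' := by
          apply mul_le_mul_of_nonneg_left _ (by linarith)
          exact Real.rpow_le_rpow (by linarith [hτ1 m]) (hτ2 m hm.1) hδ'0.le
        apply mul_le_mul hb
        · apply Summable.tsum_le_tsum
          · intro x
            by_cases hx : |l x - (d * Real.log (τ m) + Con f h)| ≤ C * Real.log (τ m) / H
            · rw [if_pos hx, if_pos]
              refine hx.trans ?_
              apply div_le_div_of_nonneg_right _ hH0.le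
              exact mul_le_mul_of_nonneg_left (hlogτ m hm.1) (by linarith)
            · rw [if_neg hx]
              split_ifs
              · exact hg0 x
              · exact le_rfl
          · apply Summable.of_nonneg_of_le _ _ hsum
            · intro x; split_ifs
              · positivity
              · exact le_rfl
            · intro x; split_ifs
              · exact le_rfl
              · exact hg0 x
          · apply Summable.of_nonneg_of_le _ _ hsum
            · intro x; split_ifs
              · exact hg0 x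
              · exact le_rfl
            · intro x; split_ifs
              · exact le_rfl
              · exact hg0 x
        · apply tsum_nonneg
          intro x; split_ifs
          · positivity
          · exact le_rfl
        · positivity
      · exact mul_le_mul_of_nonneg_left (hlogτ m hm.1) hH0.le
      · exact le_trans hCHw (hτ1 m)
      · intro s hs
        by_contra hcon
        exact hm.2 ⟨s, hs, not_lt.mp hcon⟩
    have hρ0 : 0 ≤ C * L / H := by positivity
    have hsumm : ∀ m ∈ non, Summable fun x => if cond m x then g x else 0 := by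
      intro m _
      apply Summable.of_nonneg_of_le _ _ hsum
      · intro x; split_ifs
        · exact hg0 x
        · exact le_rfl
      · intro x; split_ifs
        · exact le_rfl
        · exact hg0 x
    set K := 1 + 4 * X * (C * L / H) / (d * D) with hK
    have hK0 : 0 ≤ K := by positivity
    have htot : (non.card : ℝ) ≤ C * (2 * X) ^ δ' * (S * K) := by
      calc (non.card : ℝ) = ∑ m ∈ non, (1 : ℝ) := by simp
        _ ≤ ∑ m ∈ non, C * (2 * X) ^ δ' * ∑' x, if cond m x then g x else 0 :=
          Finset.sum_le_sum hstep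
        _ = C * (2 * X) ^ δ' * ∑' x, ∑ m ∈ non, if cond m x then g x else 0 := by
          rw [← Finset.mul_sum, Summable.tsum_finsetSum hsumm]
        _ ≤ C * (2 * X) ^ δ' * ∑' x, g x * K := by
          apply mul_le_mul_of_nonneg_left _ (by positivity)
          apply Summable.tsum_le_tsum
          · intro x
            rw [← Finset.sum_filter, Finset.sum_const, nsmul_eq_mul, mul_comm]
            apply mul_le_mul_of_nonneg_left _ (hg0 x)
            apply count_log X D d (C * L / H) (l x - Con f h) M hX0 hD0 hdeg hρ0 hMD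
            intro m hm
            rw [Finset.mem_filter, hnon, Finset.mem_filter, Finset.mem_range] at hm
            refine ⟨hm.1.1, ?_⟩
            have := hm.2
            rw [hcond] at this
            simp only [hτ] at this
            convert this using 2
            ring
          · exact summable_sum hsumm
          · exact hsum.mul_right K
        _ = _ := by rw [tsum_mul_right]
    have h2X : (2 * X) ^ δ' ≤ 2 * X ^ δ' := by
      rw [Real.mul_rpow (by norm_num) hX0.le]
      apply mul_le_mul_of_nonneg_right _ (by positivity)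
      calc (2 : ℝ) ^ δ' ≤ 2 ^ (1 : ℝ) := Real.rpow_le_rpow_of_exponent_le (by norm_num) (by linarith)
        _ = 2 := by norm_num
    have hKD : K * D = D + 4 * X * (C * L / H) / d := by
      rw [hK]; field_simp
    have hXδ'0 : 0 < X ^ δ' := by positivity
    have hXη0 : 0 < X ^ η := by positivity
    calc (non.card : ℝ) * D ≤ C * (2 * X) ^ δ' * (S * K) * D :=
          mul_le_mul_of_nonneg_right htot hD0.le
      _ = (2 * X) ^ δ' * (C * S * (K * D)) := by ring
      _ ≤ (2 * X ^ δ') * (C * S * (K * D)) :=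
          mul_le_mul_of_nonneg_right h2X (by positivity)
      _ = (C * S * 2) * (X ^ δ' * D) + (C * S * 2 * (4 * C / d)) * (X ^ δ' * L) / H * X := by
          rw [hKD]; field_simp
      _ ≤ (C * S * 2) * (X ^ δ' * (A * X ^ (δ₂ + η))) +
          (C * S * 2 * (4 * C / d)) * (X ^ δ' * X ^ η) / H * X := by
          gcongr
      _ = (C * S * 2 * A) * X ^ (δ' + (δ₂ + η)) +
          (C * S * 2 * (4 * C / d)) * X ^ (δ' + η) / H * X := by
          rw [Real.rpow_add hX0 δ' (δ₂ + η), Real.rpow_add hX0 δ' η]; ring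
      _ ≤ X / 16 + 1 / 16 * X := by
          have e1 : (C * S * 2 * A) * X ^ (δ' + (δ₂ + η)) ≤ X / 16 := by linarith
          have e2 : (C * S * 2 * (4 * C / d)) * X ^ (δ' + η) / H ≤ 1 / 16 := by
            rw [div_le_iff₀ hH0]; linarith
          have e3 := mul_le_mul_of_nonneg_right e2 hX0.le
          linarith
      _ = X / 8 := by ring
  have hMD2 : X / 2 ≤ M * D := by
    have := mul_le_mul_of_nonneg_right hM2 hD0.le
    have e : X / (2 * D) * D = X / 2 := by field_simp
    rwa [e] at this
  have hhitD : X / 4 ≤ hit.card * D := by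
    have : (hit.card : ℝ) * D = M * D - non.card * D := by rw [← hcard]; ring
    rw [this]; linarith
  -- choose the exceptional points
  have hch : ∀ m : ℕ, ∃ s : ℂ, P m → Exc f h s ∧ |s.im - τ m| ≤ w + W := by
    intro m
    by_cases hm : P m
    · obtain ⟨s, hs⟩ := hm
      exact ⟨s, fun _ => hs⟩
    · exact ⟨0, fun h => absurd h hm⟩
  choose z hz using hch
  refine ⟨hit.image z, ?_, ?_⟩
  · rw [Finset.card_image_of_injOn]
    · have h1 : T ^ (1 - δ) ≤ T ^ (1 - δ₁) := by
        apply Real.rpow_le_rpow_of_exponent_le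
        · linarith
        · linarith
      have hT4 : T = 4 * X := by rw [hX]; ring
      have h2 : T ^ (1 - δ₁) ≤ 4 * X ^ (1 - δ₁) := by
        rw [hT4, Real.mul_rpow (by norm_num) hX0.le]
        apply mul_le_mul_of_nonneg_right _ (by positivity)
        calc (4 : ℝ) ^ (1 - δ₁) ≤ 4 ^ (1 : ℝ) :=
              Real.rpow_le_rpow_of_exponent_le (by norm_num) (by linarith)
          _ = 4 := by norm_num
      have h3 : 16 * D ≤ X ^ δ₁ := by linarith
      have h4 : X ^ (1 - δ₁) * X ^ δ₁ = X := by
        rw [← Real.rpow_add hX0]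
        simp
      have h5 : 4 * X ^ (1 - δ₁) * D ≤ hit.card * D := by
        have : X ^ (1 - δ₁) * (16 * D) ≤ X := by
          calc _ ≤ X ^ (1 - δ₁) * X ^ δ₁ := mul_le_mul_of_nonneg_left h3 (by positivity)
            _ = X := h4
        linarith
      have h6 := le_of_mul_le_mul_right h5 hD0
      linarith
    · intro m hm m' hm' hmm
      simp only [Finset.coe_filter, Finset.mem_range, hhit, Set.mem_ofPred_eq] at hm hm'
      have h1 := (hz m hm.2).2
      have h2 := (hz m' hm'.2).2
      rw [hmm] at h1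
      by_contra hne
      have h3 : |τ m - τ m'| ≤ 2 * (w + W) := by
        have : τ m - τ m' = ((z m').im - τ m') - ((z m').im - τ m) := by ring
        rw [this]
        refine (abs_sub _ _).trans ?_
        linarith
      have h4 : τ m - τ m' = ((m : ℝ) - m') * D := by simp only [hτ]; ring
      rw [h4, abs_mul, abs_of_pos hD0] at h3
      have h5 : (1 : ℝ) ≤ |(m : ℝ) - m'| := by
        have : (1 : ℤ) ≤ |(m : ℤ) - m'| := by
          apply Int.one_le_abs
          omega
        exact_mod_cast this
      have h6 : D ≤ |(m : ℝ) - m'| * D := by nlinarith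
      have : D ≤ 2 * (w + W) := h6.trans h3
      rw [hD] at this
      linarith
  · intro s hs
    rw [Finset.mem_image] at hs
    obtain ⟨m, hm, rfl⟩ := hs
    rw [hhit, Finset.mem_filter, Finset.mem_range] at hm
    obtain ⟨h1, h2⟩ := hz m hm.2
    rw [abs_le] at h2
    have h3 := hτ1 m
    have h4 := hτ2 m hm.1
    have h5 : w + W ≤ X / 2 := by
      have : w + W ≤ D := by rw [hD]; linarith
      linarith
    refine ⟨?_, ?_, h1⟩
    · have : T / 8 = X / 2 := by rw [hX]; ring
      rw [this]; linarith [h2.1]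
    · have : T = 4 * X := by rw [hX]; ring
      rw [this]; linarith [h2.2]

end Pool.Agent.H70.DZ
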