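import Pool.Agent.H74.DZ.Targets

/-!
# Module GA: shifting a Gaussian mean
-/

set_option autoImplicit false

open Complex MeasureTheory Set

namespace Pool.Agent.H70.DZ

open Pool.Agent.H74.DZ

theorem norm_gz (H T : ℝ) (s : ℂ) :
    ‖gz H T s‖ = Real.exp ((s.re ^ 2 - (s.im - T) ^ 2) / H ^ 2) := by
  unfold gz
  rw [Complex.norm_exp]
  congr 1
  have h1 : ((s - T * I) / H) = (((s.re / H : ℝ) : ℂ) + ((s.im - T) / H : ℝ) * I) := by
    apply Complex.ext
    · simp
    · simp
  rw [h1, sq]
  simp only [Complex.mul_re, Complex.add_re, Complex.add_im, Complex.ofReal_re, Complex.ofReal_im,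
    Complex.mul_im, Complex.I_re, Complex.I_im]
  ring_nf

theorem norm_gz' (H T a y : ℝ) :
    ‖gz H T (a + y * I)‖ = Real.exp ((a / H) ^ 2) * Real.exp (-((y - T) / H) ^ 2) := by
  rw [norm_gz, ← Real.exp_add]
  congr 1
  simp
  ring

theorem differentiable_gz (H T : ℝ) : Differentiable ℂ (gz H T) := by
  unfold gz
  fun_prop

theorem ga : T_GA := by
  intro F a b T w H M hH hw hM hd hb
  set f : ℂ → ℂ := fun s => gz H T s * F s with hf
  have key := Complex.integral_boundary_rect_eq_zero_of_differentiableOn f
    (a + (T - w : ℝ) * I) (b + (T + w : ℝ) * I) ?_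
  · simp only [Complex.add_re, Complex.ofReal_re, Complex.mul_re, Complex.ofReal_im,
      Complex.I_re, Complex.I_im, Complex.add_im, Complex.mul_im, mul_zero, mul_one, sub_zero,
      add_zero, zero_add, zero_mul, smul_eq_mul] at key
    set A := ∫ x : ℝ in a..b, f (x + ((T - w : ℝ) : ℂ) * I) with hA
    set B := ∫ x : ℝ in a..b, f (x + ((T + w : ℝ) : ℂ) * I) with hB
    have hE : ∀ v : ℝ, |v - T| = w → ‖∫ x : ℝ in a..b, f (x + (v : ℂ) * I)‖ ≤
        (M * Real.exp ((max (a ^ 2) (b ^ 2) - w ^ 2) / H ^ 2)) * |b - a| := by
      intro v hv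
      apply intervalIntegral.norm_integral_le_of_norm_le_const
      intro x hx
      have hx' : x ∈ uIcc a b := uIoc_subset_uIcc hx
      simp only [hf, norm_mul]
      rw [mul_comm]
      apply mul_le_mul
      · apply hb
        · simpa using hx'
        · simpa using hv
      · rw [norm_gz]
        apply Real.exp_le_exp.mpr
        have hx2 : x ^ 2 ≤ max (a ^ 2) (b ^ 2) := by
          rw [mem_uIcc] at hx'
          rcases hx' with h | h
          · by_cases h0 : 0 ≤ x
            · exact le_trans (by nlinarith [h.2]) (le_max_right _ _)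
            · push Not at h0
              exact le_trans (by nlinarith [h.1]) (le_max_left _ _)
          · by_cases h0 : 0 ≤ x
            · exact le_trans (by nlinarith [h.2]) (le_max_left _ _)
            · push Not at h0
              exact le_trans (by nlinarith [h.1]) (le_max_right _ _)
        have hv2 : (v - T) ^ 2 = w ^ 2 := by rw [← sq_abs, hv]
        apply div_le_div_of_nonneg_right _ (by positivity)
        have e1 : (x + (v : ℂ) * I).re = x := by simp
        have e2 : (x + (v : ℂ) * I).im = v := by simp
        rw [e1, e2, hv2]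
        linarith
      · positivity
      · exact hM
    have hA1 := hE (T - w) (by rw [show T - w - T = -w by ring, abs_neg, abs_of_nonneg hw])
    have hB1 := hE (T + w) (by rw [show T + w - T = w by ring, abs_of_nonneg hw])
    have heq : I * ((∫ y in (T - w)..(T + w), f (b + y * I)) -
        ∫ y in (T - w)..(T + w), f (a + y * I)) = B - A := by
      rw [mul_sub]
      linear_combination key
    have hn : ‖(∫ y in (T - w)..(T + w), f (b + y * I)) -
        ∫ y in (T - w)..(T + w), f (a + y * I)‖ = ‖B - A‖ := by
      rw [← heq, norm_mul, Complex.norm_I, one_mul]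
    calc _ = ‖B - A‖ := hn
      _ ≤ ‖B‖ + ‖A‖ := norm_sub_le _ _
      _ ≤ _ := by
        have := add_le_add hB1 hA1
        refine this.trans (le_of_eq ?_)
        ring
  · intro s hs
    rw [Complex.mem_reProdIm] at hs
    simp only [Complex.add_re, Complex.ofReal_re, Complex.mul_re, Complex.ofReal_im,
      Complex.I_re, Complex.I_im, Complex.add_im, Complex.mul_im, mul_zero, mul_one, sub_zero,
      add_zero, zero_add, zero_mul] at hs
    have h2 : |s.im - T| ≤ w := by
      have := hs.2
      rw [uIcc_of_le (by linarith)] at this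
      rw [abs_le]
      constructor <;> linarith [this.1, this.2]
    exact ((differentiable_gz H T s).mul (hd s hs.1 h2)).differentiableWithinAt

theorem gb : T_GB := by
  refine ⟨?_, fun H T a y _ => norm_gz' H T a y⟩
  intro T w H hH hw
  have hcont : Continuous fun y : ℝ => Real.exp (-((y - T) / H) ^ 2) := by fun_prop
  have hint : ∀ p q : ℝ, IntervalIntegrable (fun y : ℝ => Real.exp (-((y - T) / H) ^ 2))
      volume p q := fun p q => hcont.intervalIntegrable p q
  constructor
  · have h1 : (∫ y in (T - H)..(T + H), Real.exp (-((y - T) / H) ^ 2)) ≤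
        ∫ y in (T - w)..(T + w), Real.exp (-((y - T) / H) ^ 2) := by
      apply intervalIntegral.integral_mono_interval (by linarith) (by linarith) (by linarith)
      · exact Filter.Eventually.of_forall fun y => (Real.exp_pos _).le
      · exact hint _ _
    have h2 : (∫ y in (T - H)..(T + H), (0.36 : ℝ)) ≤
        ∫ y in (T - H)..(T + H), Real.exp (-((y - T) / H) ^ 2) := by
      apply intervalIntegral.integral_mono_on (by linarith) (by simp) (hint _ _)
      intro y hy
      have h3 : ((y - T) / H) ^ 2 ≤ 1 := by
        rw [div_pow, div_le_one (by positivity)]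
        have : |y - T| ≤ H := by rw [abs_le]; constructor <;> linarith [hy.1, hy.2]
        rw [← sq_abs (y - T)]
        exact pow_le_pow_left₀ (abs_nonneg _) this 2
      have h4 : Real.exp (-1) ≤ Real.exp (-((y - T) / H) ^ 2) := Real.exp_le_exp.mpr (by linarith)
      have h5 := Real.exp_neg_one_gt_d9
      linarith
    have h6 : (∫ y in (T - H)..(T + H), (0.36 : ℝ)) = 0.72 * H := by
      rw [intervalIntegral.integral_const, smul_eq_mul]; ring
    linarith
  · have h1 : (∫ y in (T - w)..(T + w), Real.exp (-((y - T) / H) ^ 2)) =
        H * ∫ u in (-(w / H))..(w / H), Real.exp (-u ^ 2) := by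
      have := intervalIntegral.integral_comp_div_sub (a := T - w) (b := T + w)
        (fun u : ℝ => Real.exp (-u ^ 2)) hH.ne' (T / H)
      rw [smul_eq_mul] at this
      have e1 : (T - w) / H - T / H = -(w / H) := by ring
      have e2 : (T + w) / H - T / H = w / H := by ring
      rw [e1, e2] at this
      rw [← this]
      congr 1
      ext y
      congr 2
      ring
    have hg : Integrable (fun u : ℝ => Real.exp (-u ^ 2)) volume := by
      have := integrable_exp_neg_mul_sq (b := 1) one_pos
      simpa using this
    have h2 : (∫ u in (-(w / H))..(w / H), Real.exp (-u ^ 2)) ≤ ∫ u : ℝ, Real.exp (-u ^ 2) := by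
      have hwH : 0 ≤ w / H := div_nonneg (by linarith) hH.le
      rw [intervalIntegral.integral_of_le (by linarith)]
      exact setIntegral_le_integral hg (Filter.Eventually.of_forall fun y => (Real.exp_pos _).le)
    have h3 : (∫ u : ℝ, Real.exp (-u ^ 2)) = Real.sqrt Real.pi := by
      have := integral_gaussian 1
      simpa using this
    have h4 : Real.sqrt Real.pi ≤ 2 := by
      rw [Real.sqrt_le_left (by norm_num)]
      linarith [Real.pi_lt_four]
    rw [h1]
    nlinarith

end Pool.Agent.H70.DZ
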